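import Pool.Agent.L7h88.BW.Stm

/-! Project BW (helper88), part MSQ: mean square of the Dirichlet polynomials of `χ Λ` for the good characters. -/

set_option autoImplicit false

namespace Pool.Agent.L7h76.BW

open Finset Filter MeasureTheory
open Pool.Agent.H376R2.MR (ch DP FK w)
open Pool.Agent.Q240.KS (cf sp ty ed DY zY pic)
open Pool.Agent.Q95.KS (aY)
open Pool.Agent.L7h88.BW

/-- polynomials against exponentials -/
lemma poly_exp (D : ℝ) (n : ℕ) {c : ℝ} (hc : 0 < c) :
    ∃ Y₀ : ℝ, ∀ Y : ℝ, Y₀ ≤ Y → D * Y ^ n ≤ Real.exp (c * Y) := by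
  have h1 : Tendsto (fun Y : ℝ => (c * Y) ^ n * Real.exp (-(c * Y))) atTop (nhds 0) :=
    (Real.tendsto_pow_mul_exp_neg_atTop_nhds_zero n).comp
      (tendsto_id.const_mul_atTop hc)
  have h2 : Tendsto (fun Y : ℝ => D / c ^ n * ((c * Y) ^ n * Real.exp (-(c * Y)))) atTop (nhds 0) := by
    have := h1.const_mul (D / c ^ n)
    simpa using this
  obtain ⟨Y₀, hY⟩ := eventually_atTop.1 ((tendsto_order.1 h2).2 1 one_pos)
  refine ⟨Y₀, fun Y h => ?_⟩
  have h3 := (hY Y h).le
  have e : D / c ^ n * ((c * Y) ^ n * Real.exp (-(c * Y))) = D * Y ^ n / Real.exp (c * Y) := by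
    rw [Real.exp_neg, mul_pow]
    field_simp
  rw [e, div_le_one (Real.exp_pos _)] at h3
  exact h3

lemma exp_lt_two {x : ℝ} (h : x ≤ 1 / 2) : Real.exp x < 2 := by
  rw [← Real.lt_log_iff_exp_lt two_pos]
  have := Real.log_two_gt_d9
  linarith

lemma PX_one {q : ℕ} (χ : DirichletCharacter ℂ q) (z : ℕ) (k : ℤ) : PX χ z 1 0 k = 1 := by
  unfold PX sp
  have h : ⌊Real.exp ((((0 : ℕ) : ℝ) + 1) / 20)⌋₊ = 1 := by
    rw [Nat.floor_eq_iff (Real.exp_pos _).le]
    constructor
    · push_cast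
      exact Real.one_le_exp (by norm_num)
    · push_cast
      have := exp_lt_two (x := (0 + 1) / 20) (by norm_num)
      linarith
  rw [h, Icc_self, sum_singleton]
  have e1 : cf z 1 0 1 = 1 := by
    unfold cf
    simp [Pool.Agent.Q95.KS.w_zero]
  rw [e1]
  simp [ch]

lemma mem_FK {K : ℕ} {k : ℤ} : k ∈ FK K ↔ |k| < K := by
  unfold FK
  rw [mem_Ioo, abs_lt]

lemma mem_prm {f : ℕ} {P : DirichletCharacter ℂ f → Prop} {χ : DirichletCharacter ℂ f} :
    χ ∈ prm f P ↔ χ.IsPrimitive ∧ P χ := by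
  unfold prm
  simp

/-- one factor is bounded, the others in mean square -/
lemma core {C : ℕ} (hM : ∀ (F K z : ℕ) (tt : Fin 10 → Fin 3) (d : Fin 10 → ℕ), 1 ≤ F → 1 ≤ K →
    ∑ f ∈ Icc 1 F, ∑ χ ∈ prm f (fun _ => True), ∑ k ∈ FK K, ‖∏ i, PX χ z (tt i) (d i) k‖ ^ 2 ≤
      C * (1 + ∑ i, (d i : ℝ)) ^ C * (1 + (F : ℝ) ^ 2 * K * Real.exp (-((∑ i, (d i : ℝ)) / 20))))
    (F K z : ℕ) (hF : 1 ≤ F) (hK : 1 ≤ K) (tt : Fin 10 → Fin 3) (d : Fin 10 → ℕ) (j : Fin 10)
    (S : Finset ℤ) (hS : S ⊆ FK K) (P : ∀ f : ℕ, DirichletCharacter ℂ f → Prop) (G : ℝ) (hG : 0 ≤ G)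
    (hb : ∀ f ∈ Icc 2 F, ∀ χ ∈ prm f (P f), ∀ k ∈ S, ‖PX χ z (tt j) (d j) k‖ ^ 2 ≤ G) :
    ∑ f ∈ Icc 2 F, ∑ χ ∈ prm f (P f), ∑ k ∈ S, ‖∏ i, PX χ z (tt i) (d i) k‖ ^ 2 ≤
      G * (C * (1 + ∑ i, (d i : ℝ)) ^ C *
        (1 + (F : ℝ) ^ 2 * K * Real.exp (-((∑ i, (d i : ℝ) - d j) / 20)))) := by
  classical
  set tt' : Fin 10 → Fin 3 := Function.update tt j 1 with htt
  set d' : Fin 10 → ℕ := Function.update d j 0 with hd'
  have hsum : ∑ i, (d' i : ℝ) = ∑ i, (d i : ℝ) - d j := by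
    rw [← add_sum_erase univ (fun i => (d' i : ℝ)) (mem_univ j),
      ← add_sum_erase univ (fun i => (d i : ℝ)) (mem_univ j)]
    have e : ∑ x ∈ univ.erase j, (d' x : ℝ) = ∑ x ∈ univ.erase j, (d x : ℝ) := by
      apply sum_congr rfl
      intro x hx
      rw [hd', Function.update_of_ne (ne_of_mem_erase hx)]
    rw [e, hd', Function.update_self]
    push_cast
    ring
  have hprod : ∀ (f : ℕ) (χ : DirichletCharacter ℂ f) (k : ℤ), ∏ i, PX χ z (tt i) (d i) k =
      PX χ z (tt j) (d j) k * ∏ i, PX χ z (tt' i) (d' i) k := by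
    intro f χ k
    rw [← mul_prod_erase univ (fun i => PX χ z (tt i) (d i) k) (mem_univ j),
      ← mul_prod_erase univ (fun i => PX χ z (tt' i) (d' i) k) (mem_univ j)]
    have e : ∏ x ∈ univ.erase j, PX χ z (tt' x) (d' x) k = ∏ x ∈ univ.erase j, PX χ z (tt x) (d x) k := by
      apply prod_congr rfl
      intro x hx
      rw [htt, hd', Function.update_of_ne (ne_of_mem_erase hx), Function.update_of_ne (ne_of_mem_erase hx)]
    rw [e, htt, hd', Function.update_self, Function.update_self, PX_one, one_mul]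
  have h1 : ∑ f ∈ Icc 2 F, ∑ χ ∈ prm f (P f), ∑ k ∈ S, ‖∏ i, PX χ z (tt i) (d i) k‖ ^ 2 ≤
      G * ∑ f ∈ Icc 1 F, ∑ χ ∈ prm f (fun _ => True), ∑ k ∈ FK K, ‖∏ i, PX χ z (tt' i) (d' i) k‖ ^ 2 := by
    have step : ∑ f ∈ Icc 2 F, ∑ χ ∈ prm f (P f), ∑ k ∈ S, ‖∏ i, PX χ z (tt i) (d i) k‖ ^ 2 ≤
        ∑ f ∈ Icc 2 F, ∑ χ ∈ prm f (P f), ∑ k ∈ S, G * ‖∏ i, PX χ z (tt' i) (d' i) k‖ ^ 2 := by
      refine sum_le_sum fun f hf => sum_le_sum fun χ hχ => sum_le_sum fun k hk => ?_
      rw [hprod f χ k, norm_mul, mul_pow]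
      exact mul_le_mul_of_nonneg_right (hb f hf χ hχ k hk) (by positivity)
    refine step.trans ?_
    rw [mul_sum]
    have sub2 : Icc 2 F ⊆ Icc 1 F := Icc_subset_Icc_left (by norm_num)
    refine (sum_le_sum fun f _ => ?_).trans (sum_le_sum_of_subset_of_nonneg sub2 fun f _ _ => ?_)
    · rw [mul_sum]
      have sub3 : prm f (P f) ⊆ prm f (fun _ => True) := by
        intro χ hχ
        rw [mem_prm] at hχ ⊢
        exact ⟨hχ.1, trivial⟩
      refine (sum_le_sum fun χ _ => ?_).trans (sum_le_sum_of_subset_of_nonneg sub3 fun χ _ _ => ?_)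
      · rw [mul_sum]
        exact sum_le_sum_of_subset_of_nonneg hS fun k _ _ => by positivity
      · exact mul_nonneg hG (sum_nonneg fun k _ => by positivity)
    · exact mul_nonneg hG (sum_nonneg fun χ _ => sum_nonneg fun k _ => by positivity)
  refine h1.trans (mul_le_mul_of_nonneg_left ?_ hG)
  refine (hM F K z tt' d' hF hK).trans ?_
  rw [hsum]
  have hdj : (0 : ℝ) ≤ d j := Nat.cast_nonneg _
  have hle : 0 ≤ 1 + (∑ i, (d i : ℝ) - d j) := by
    rw [← hsum]
    positivity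
  apply mul_le_mul_of_nonneg_right _ (by positivity)
  apply mul_le_mul_of_nonneg_left _ (by positivity)
  apply pow_le_pow_left₀ hle
  linarith

/-- exponentials -/
lemma rhs_le {Y a s : ℝ} {F K : ℕ} {κ : ℝ} (hF : (F : ℝ) ≤ Real.exp (Y / 100))
    (hK : (K : ℝ) ≤ 2 * Real.exp (κ * Y)) (hs : Y - 1 ≤ s / 20) :
    (F : ℝ) ^ 2 * K * Real.exp (-(s / 20 - a)) ≤ 6 * Real.exp ((κ - 0.98) * Y + a) := by
  have h1 : (F : ℝ) ^ 2 ≤ Real.exp (0.02 * Y) := by
    calc (F : ℝ) ^ 2 ≤ Real.exp (Y / 100) ^ 2 := pow_le_pow_left₀ (Nat.cast_nonneg _) hF 2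
      _ = Real.exp (0.02 * Y) := by
        rw [← Real.exp_nat_mul]
        congr 1
        push_cast
        ring
  have h2 : Real.exp (-(s / 20 - a)) ≤ Real.exp (1 - Y + a) := Real.exp_le_exp.mpr (by linarith)
  have he := Real.exp_one_lt_d9
  calc (F : ℝ) ^ 2 * K * Real.exp (-(s / 20 - a))
      ≤ Real.exp (0.02 * Y) * (2 * Real.exp (κ * Y)) * Real.exp (1 - Y + a) := by
        apply mul_le_mul _ h2 (Real.exp_pos _).le (by positivity)
        exact mul_le_mul h1 hK (Nat.cast_nonneg _) (Real.exp_pos _).le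
    _ = 2 * Real.exp 1 * Real.exp ((κ - 0.98) * Y + a) := by
        have e : Real.exp (0.02 * Y) * (2 * Real.exp (κ * Y)) * Real.exp (1 - Y + a) =
            2 * (Real.exp (0.02 * Y) * Real.exp (κ * Y) * Real.exp (1 - Y + a)) := by ring
        rw [e, ← Real.exp_add, ← Real.exp_add, mul_assoc, ← Real.exp_add]
        congr 2
        ring
    _ ≤ 6 * Real.exp ((κ - 0.98) * Y + a) := by
        apply mul_le_mul_of_nonneg_right _ (Real.exp_pos _).le
        linarith

lemma prim_ne {f : ℕ} (hf : 2 ≤ f) {P : DirichletCharacter ℂ f → Prop} {χ : DirichletCharacter ℂ f}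
    (h : χ ∈ prm f P) : χ ≠ 1 := by
  rintro rfl
  have h1 := (mem_prm.1 h).1
  have : NeZero f := ⟨by omega⟩
  rw [DirichletCharacter.isPrimitive_def, DirichletCharacter.conductor_one] at h1
  omega

lemma prim_P {f : ℕ} {P : DirichletCharacter ℂ f → Prop} {χ : DirichletCharacter ℂ f}
    (h : χ ∈ prm f P) : P χ := (mem_prm.1 h).2

/-- a Moebius factor is zero beyond the cut -/
lemma PX_zero {Y : ℝ} (hY : 2 ≤ Y) {q : ℕ} (χ : DirichletCharacter ℂ q) {d : ℕ} (hd : 0.45 * Y < (d : ℝ) / 20)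
    (k : ℤ) : PX χ (zY Y) 0 d k = 0 := by
  unfold PX
  apply sum_eq_zero
  intro n hn
  have h0 : cf (zY Y) 0 d n = 0 := by
    by_contra hne
    have h1 := abs_le.mp (Pool.Agent.Q95.KS.cf_ne hne)
    have h2 : n ≤ zY Y := by
      by_contra hc
      apply hne
      unfold cf
      rw [if_pos rfl, if_neg hc]
      simp
    unfold sp at hn
    rw [mem_Icc] at hn
    have h3 : (n : ℝ) ≤ Real.exp ((Y + 2) / 5) := by
      have h4 : (n : ℝ) ≤ zY Y := by exact_mod_cast h2
      refine h4.trans ?_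
      unfold zY
      exact Nat.floor_le (Real.exp_pos _).le
    have h5 : Real.log n ≤ (Y + 2) / 5 := by
      rw [Real.log_le_iff_le_exp (by exact_mod_cast hn.1)]
      exact h3
    linarith [h1.1]
  rw [h0]
  simp


lemma Kc_le (Y : ℝ) : (Kc Y : ℝ) ≤ Real.exp (0.505 * Y) := Nat.floor_le (Real.exp_pos _).le

lemma Kc1_le {Y : ℝ} (hY : 0 ≤ Y) : ((Kc Y + 1 : ℕ) : ℝ) ≤ 2 * Real.exp (0.505 * Y) := by
  have h1 := Kc_le Y
  have h2 : 1 ≤ Real.exp (0.505 * Y) := Real.one_le_exp (by positivity)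
  push_cast
  linarith

lemma Fc_le (Y : ℝ) : (Fc Y : ℝ) ≤ Real.exp (Y / 100) := Nat.floor_le (Real.exp_pos _).le

lemma Fc_pos {Y : ℝ} (hY : 0 ≤ Y) : 1 ≤ Fc Y := by
  unfold Fc
  apply Nat.le_floor
  push_cast
  exact Real.one_le_exp (by positivity)

lemma fk_le {Y : ℝ} {k : ℤ} (h : k ∈ FK (Kc Y + 1)) : |(k : ℝ)| ≤ Kc Y := by
  rw [mem_FK] at h
  have h1 : |k| ≤ (Kc Y : ℤ) := by
    push_cast at h
    omega
  have h2 : ((|k| : ℤ) : ℝ) ≤ ((Kc Y : ℤ) : ℝ) := by exact_mod_cast h1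
  rw [Int.cast_abs] at h2
  exact_mod_cast h2

lemma fin_est {D Y : ℝ} {n A : ℕ} (hY : 1 ≤ Y) (h : 2 * D * Y ^ (n + A) ≤ Real.exp (0.045 * Y)) :
    D * Y ^ n * Real.exp (-(0.045 * Y)) ≤ 1 / 2 * (1 / Y ^ A) := by
  have hY0 : 0 < Y := by linarith
  have e0 : 1 / 2 * (1 / Y ^ A) = 1 / (2 * Y ^ A) := by field_simp
  rw [Real.exp_neg, ← div_eq_mul_inv, e0, div_le_div_iff₀ (Real.exp_pos _) (by positivity)]
  have e : D * Y ^ n * (2 * Y ^ A) = 2 * D * Y ^ (n + A) := by rw [pow_add]; ring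
  linarith

/-- a large index -/
lemma exists_large (d : Fin 10 → ℕ) : ∃ j, (∑ i, (d i : ℝ)) / 10 ≤ d j := by
  by_contra hc
  push Not at hc
  have h1 : ∑ i, (d i : ℝ) < ∑ _i : Fin 10, (∑ i, (d i : ℝ)) / 10 :=
    sum_lt_sum_of_nonempty univ_nonempty fun i _ => hc i
  rw [sum_const, card_univ, Fintype.card_fin, nsmul_eq_mul] at h1
  push_cast at h1
  linarith

theorem sd_bound (hM : S_MSP) (hA : S_SMA) (hB : S_SMB) (A : ℕ) : ∃ (B0 : ℕ) (Y₀ : ℝ), ∀ Y : ℝ, Y₀ ≤ Y →
    ∀ d ∈ DY Y, ∑ f ∈ Icc 2 (Fc Y), ∑ χ ∈ prm f (Good Y B0), ∑ k ∈ FK (Kc Y + 1),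
      ‖∏ i, PX χ (zY Y) (ty i) (d i) k‖ ^ 2 ≤ 1 / Y ^ A := by
  obtain ⟨C, hC1, hM⟩ := hM
  obtain ⟨Ca, hCa, hA⟩ := hA
  obtain ⟨Cb, hCb, hB⟩ := hB
  set M : ℝ := C * 41 ^ C with hMd
  have hM0 : 0 ≤ M := by positivity
  obtain ⟨Y2, hY2⟩ := poly_exp (2 * (7 * (82 * Ca) ^ 2 * M)) (C + 2 + A) (c := 0.045) (by norm_num)
  obtain ⟨Y3, hY3⟩ := poly_exp (2 * (7 * (3362 * Cb) ^ 2 * M)) (C + 4 + A) (c := 0.045) (by norm_num)
  refine ⟨C + A + 1, max (max Y2 Y3) (max 10 (7 * M)), fun Y hY d hd => ?_⟩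
  have hy2 := hY2 Y ((le_max_left _ _).trans ((le_max_left _ _).trans hY))
  have hy3 := hY3 Y ((le_max_right _ _).trans ((le_max_left _ _).trans hY))
  have hy10 : 10 ≤ Y := (le_max_left _ _).trans ((le_max_right _ _).trans hY)
  have hyM : 7 * M ≤ Y := (le_max_right _ _).trans ((le_max_right _ _).trans hY)
  have hY0 : 0 < Y := by linarith
  have hY1 : 1 ≤ Y := by linarith
  clear hY hY2 hY3
  set B0 := C + A + 1 with hB0
  have hs := abs_le.mp (Pool.Agent.Q95.KS.DY_sum hd)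
  obtain ⟨j, hj⟩ := exists_large d
  set s : ℝ := ∑ i, (d i : ℝ) with hsd
  set a : ℝ := (d j : ℝ) / 20 with had
  have hdj : (d j : ℝ) ≤ s := single_le_sum (f := fun i => (d i : ℝ)) (fun i _ => Nat.cast_nonneg _) (mem_univ j)
  have ha1 : 0.09 * Y ≤ a := by
    rw [had]
    linarith [hs.1]
  have ha2 : a ≤ Y + 1 := by
    rw [had]
    linarith [hs.2]
  have hd41 : 1 + (d j : ℝ) ≤ 41 * Y := by linarith [hs.2]
  have hs41 : 1 + s ≤ 41 * Y := by linarith [hs.2]
  have hs0 : 0 ≤ s := sum_nonneg fun i _ => Nat.cast_nonneg _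
  have hFp := Fc_pos hY0.le
  -- the factor of the others
  have hfac : ∀ (K : ℕ) (κ : ℝ), (K : ℝ) ≤ 2 * Real.exp (κ * Y) →
      C * (1 + s) ^ C * (1 + (Fc Y : ℝ) ^ 2 * K * Real.exp (-((s - d j) / 20))) ≤
        M * Y ^ C * (1 + 6 * Real.exp ((κ - 0.98) * Y + a)) := by
    intro K κ hK
    have h1 := rhs_le (a := a) (s := s) (Fc_le Y) hK (by linarith [hs.1])
    have e : (s - d j) / 20 = s / 20 - a := by rw [had]; ring
    rw [e]
    have h2 : (C : ℝ) * (1 + s) ^ C ≤ M * Y ^ C := by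
      rw [hMd, mul_assoc, ← mul_pow]
      apply mul_le_mul_of_nonneg_left _ (by positivity)
      exact pow_le_pow_left₀ (by positivity) hs41 C
    apply mul_le_mul h2 _ (by positivity) (by positivity)
    linarith
  -- the first bound of a smooth factor
  have hsma : ty j ≠ 0 → ∀ t : ℝ, 0 ≤ t → ∀ f ∈ Icc 2 (Fc Y), ∀ χ ∈ prm f (Good Y B0), ∀ k : ℤ,
      |(k : ℝ)| ≤ Real.exp (t * Y) → ‖PX χ (zY Y) (ty j) (d j) k‖ ^ 2 ≤
        (82 * Ca) ^ 2 * Y ^ 2 * Real.exp (2 * ((0.01 + t) * Y - a)) := by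
    intro htj t ht f hf χ hχ k hk
    rw [mem_Icc] at hf
    have hne : NeZero f := ⟨by omega⟩
    have h1 := hA f hne χ (zY Y) (ty j) (d j) k (prim_ne hf.1 hχ) htj
    have hf2 : (f : ℝ) ≤ Real.exp (Y / 100) := by
      have : (f : ℝ) ≤ Fc Y := by exact_mod_cast hf.2
      exact this.trans (Fc_le Y)
    have ht1 : 1 ≤ Real.exp (t * Y) := Real.one_le_exp (by positivity)
    have h2 : ‖PX χ (zY Y) (ty j) (d j) k‖ ≤ 82 * Ca * Y * Real.exp ((0.01 + t) * Y - a) := by
      refine h1.trans ?_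
      calc Ca * f * (1 + |(k : ℝ)|) * (1 + d j) * Real.exp (-((d j : ℝ) / 20))
          ≤ Ca * Real.exp (Y / 100) * (2 * Real.exp (t * Y)) * (41 * Y) * Real.exp (-((d j : ℝ) / 20)) := by
            apply mul_le_mul_of_nonneg_right _ (Real.exp_pos _).le
            apply mul_le_mul _ hd41 (by positivity) (by positivity)
            apply mul_le_mul _ (by linarith) (by positivity) (by positivity)
            exact mul_le_mul_of_nonneg_left hf2 (by linarith)
        _ = 82 * Ca * Y * Real.exp ((0.01 + t) * Y - a) := by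
            have e : Real.exp ((0.01 + t) * Y - a) =
                Real.exp (Y / 100) * Real.exp (t * Y) * Real.exp (-((d j : ℝ) / 20)) := by
              rw [← Real.exp_add, ← Real.exp_add]
              congr 1
              rw [had]
              ring
            rw [e]
            ring
    calc ‖PX χ (zY Y) (ty j) (d j) k‖ ^ 2 ≤ (82 * Ca * Y * Real.exp ((0.01 + t) * Y - a)) ^ 2 :=
          pow_le_pow_left₀ (norm_nonneg _) h2 2
      _ = (82 * Ca) ^ 2 * Y ^ 2 * Real.exp (2 * ((0.01 + t) * Y - a)) := by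
          rw [mul_pow, mul_pow, ← Real.exp_nat_mul]
          push_cast
          ring
  by_cases hcase : a ≤ 0.45 * Y
  · -- case (a)
    have h1 := core hM (Fc Y) (Kc Y + 1) (zY Y) hFp (by omega) ty d j (FK (Kc Y + 1)) (Subset.refl _)
      (fun f => Good Y B0) (1 / Y ^ (2 * B0)) (by positivity) (by
        intro f hf χ hχ k hk
        have hg := (prim_P hχ) (ty j) (d j) k ha1 hcase (fk_le hk)
        calc ‖PX χ (zY Y) (ty j) (d j) k‖ ^ 2 ≤ (1 / Y ^ B0) ^ 2 := pow_le_pow_left₀ (norm_nonneg _) hg 2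
          _ = 1 / Y ^ (2 * B0) := by rw [div_pow, one_pow, ← pow_mul, mul_comm B0 2])
    refine h1.trans ?_
    have h2 := hfac (Kc Y + 1) 0.505 (Kc1_le hY0.le)
    have h3 : Real.exp ((0.505 - 0.98) * Y + a) ≤ 1 := by
      rw [Real.exp_le_one_iff]
      linarith
    have h4 : M * Y ^ C * (1 + 6 * Real.exp ((0.505 - 0.98) * Y + a)) ≤ M * Y ^ C * 7 := by
      apply mul_le_mul_of_nonneg_left _ (by positivity)
      linarith
    refine (mul_le_mul_of_nonneg_left (h2.trans h4) (by positivity)).trans ?_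
    rw [div_mul_eq_mul_div, one_mul, div_le_div_iff₀ (by positivity) (by positivity), one_mul]
    calc M * Y ^ C * 7 * Y ^ A = (7 * M) * Y ^ (C + A) := by rw [pow_add]; ring
      _ ≤ Y * Y ^ (C + A) := mul_le_mul_of_nonneg_right hyM (by positivity)
      _ = Y ^ (C + A + 1) := by rw [pow_succ]; ring
      _ ≤ Y ^ (2 * B0) := pow_le_pow_right₀ hY1 (by omega)
  · push Not at hcase
    by_cases htj : ty j = 0
    · -- case (b)
      have h0 : ∑ f ∈ Icc 2 (Fc Y), ∑ χ ∈ prm f (Good Y B0), ∑ k ∈ FK (Kc Y + 1),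
          ‖∏ i, PX χ (zY Y) (ty i) (d i) k‖ ^ 2 = 0 := by
        refine sum_eq_zero fun f _ => sum_eq_zero fun χ _ => sum_eq_zero fun k _ => ?_
        have e : ∏ i, PX χ (zY Y) (ty i) (d i) k = 0 := by
          apply prod_eq_zero (mem_univ j)
          rw [htj]
          exact PX_zero (by linarith) χ hcase k
        rw [e, norm_zero]
        norm_num
      rw [h0]
      positivity
    · by_cases h6 : 0.6 * Y < a
      · -- case (c1)
        have h1 := core hM (Fc Y) (Kc Y + 1) (zY Y) hFp (by omega) ty d j (FK (Kc Y + 1)) (Subset.refl _)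
          (fun f => Good Y B0) _ (by positivity)
          (fun f hf χ hχ k hk => hsma htj 0.505 (by norm_num) f hf χ hχ k ((fk_le hk).trans (Kc_le Y)))
        refine h1.trans ?_
        have h2 := hfac (Kc Y + 1) 0.505 (Kc1_le hY0.le)
        refine (mul_le_mul_of_nonneg_left h2 (by positivity)).trans ?_
        have e1 : Real.exp (2 * ((0.01 + 0.505) * Y - a)) ≤ Real.exp (-(0.045 * Y)) :=
          Real.exp_le_exp.mpr (by linarith)
        have e2 : Real.exp (2 * ((0.01 + 0.505) * Y - a)) * Real.exp ((0.505 - 0.98) * Y + a) ≤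
            Real.exp (-(0.045 * Y)) := by
          rw [← Real.exp_add]
          exact Real.exp_le_exp.mpr (by linarith)
        have h3 : (82 * Ca) ^ 2 * Y ^ 2 * Real.exp (2 * ((0.01 + 0.505) * Y - a)) *
            (M * Y ^ C * (1 + 6 * Real.exp ((0.505 - 0.98) * Y + a))) =
            (82 * Ca) ^ 2 * M * Y ^ (C + 2) * (Real.exp (2 * ((0.01 + 0.505) * Y - a)) +
              6 * (Real.exp (2 * ((0.01 + 0.505) * Y - a)) * Real.exp ((0.505 - 0.98) * Y + a))) := by
          rw [pow_add]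
          ring
        rw [h3]
        have h4 : (82 * Ca) ^ 2 * M * Y ^ (C + 2) * (Real.exp (2 * ((0.01 + 0.505) * Y - a)) +
              6 * (Real.exp (2 * ((0.01 + 0.505) * Y - a)) * Real.exp ((0.505 - 0.98) * Y + a))) ≤
            (82 * Ca) ^ 2 * M * Y ^ (C + 2) * (7 * Real.exp (-(0.045 * Y))) := by
          apply mul_le_mul_of_nonneg_left _ (by positivity)
          linarith
        have h5 := fin_est (D := 7 * (82 * Ca) ^ 2 * M) (n := C + 2) hY1 hy2
        have h7 : (82 * Ca) ^ 2 * M * Y ^ (C + 2) * (7 * Real.exp (-(0.045 * Y))) =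
            7 * (82 * Ca) ^ 2 * M * Y ^ (C + 2) * Real.exp (-(0.045 * Y)) := by ring
        have h8 : (0 : ℝ) ≤ 1 / Y ^ A := by positivity
        linarith
      · -- cases (c2), (c3)
        push Not at h6
        set T : ℝ := Real.exp (0.2 * Y) with hT
        have hsplit : ∑ f ∈ Icc 2 (Fc Y), ∑ χ ∈ prm f (Good Y B0), ∑ k ∈ FK (Kc Y + 1),
            ‖∏ i, PX χ (zY Y) (ty i) (d i) k‖ ^ 2 =
            ∑ f ∈ Icc 2 (Fc Y), ∑ χ ∈ prm f (Good Y B0),
              ∑ k ∈ (FK (Kc Y + 1)).filter (fun k : ℤ => |(k : ℝ)| ≤ T),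
                ‖∏ i, PX χ (zY Y) (ty i) (d i) k‖ ^ 2 +
            ∑ f ∈ Icc 2 (Fc Y), ∑ χ ∈ prm f (Good Y B0),
              ∑ k ∈ (FK (Kc Y + 1)).filter (fun k : ℤ => ¬ |(k : ℝ)| ≤ T),
                ‖∏ i, PX χ (zY Y) (ty i) (d i) k‖ ^ 2 := by
          rw [← sum_add_distrib]
          refine sum_congr rfl fun f _ => ?_
          rw [← sum_add_distrib]
          refine sum_congr rfl fun χ _ => ?_
          rw [sum_filter_add_sum_filter_not]
        rw [hsplit]
        have p1 : ∑ f ∈ Icc 2 (Fc Y), ∑ χ ∈ prm f (Good Y B0),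
              ∑ k ∈ (FK (Kc Y + 1)).filter (fun k : ℤ => |(k : ℝ)| ≤ T),
                ‖∏ i, PX χ (zY Y) (ty i) (d i) k‖ ^ 2 ≤ 1 / 2 * (1 / Y ^ A) := by
          have hT1 : 1 ≤ T := Real.one_le_exp (by positivity)
          have h1 := core hM (Fc Y) (⌊T⌋₊ + 1) (zY Y) hFp (by omega) ty d j
            ((FK (Kc Y + 1)).filter (fun k : ℤ => |(k : ℝ)| ≤ T)) (by
              intro k hk
              rw [mem_filter] at hk
              rw [mem_FK]
              have h9 : ((k.natAbs : ℕ) : ℝ) ≤ T := by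
                rw [Nat.cast_natAbs, Int.cast_abs]
                exact hk.2
              have h10 := Nat.le_floor h9
              have h11 : |k| = (k.natAbs : ℤ) := Int.abs_eq_natAbs k
              rw [h11]
              push_cast
              omega)
            (fun f => Good Y B0) _ (by positivity)
            (fun f hf χ hχ k hk => hsma htj 0.2 (by norm_num) f hf χ hχ k (mem_filter.1 hk).2)
          refine h1.trans ?_
          have h2 := hfac (⌊T⌋₊ + 1) 0.2 (by
            have := Nat.floor_le (show 0 ≤ T by positivity)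
            push_cast
            rw [← hT]
            linarith)
          refine (mul_le_mul_of_nonneg_left h2 (by positivity)).trans ?_
          have e1 : Real.exp (2 * ((0.01 + 0.2) * Y - a)) ≤ Real.exp (-(0.045 * Y)) :=
            Real.exp_le_exp.mpr (by linarith)
          have e2 : Real.exp (2 * ((0.01 + 0.2) * Y - a)) * Real.exp ((0.2 - 0.98) * Y + a) ≤
              Real.exp (-(0.045 * Y)) := by
            rw [← Real.exp_add]
            exact Real.exp_le_exp.mpr (by linarith)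
          have h3 : (82 * Ca) ^ 2 * Y ^ 2 * Real.exp (2 * ((0.01 + 0.2) * Y - a)) *
              (M * Y ^ C * (1 + 6 * Real.exp ((0.2 - 0.98) * Y + a))) =
              (82 * Ca) ^ 2 * M * Y ^ (C + 2) * (Real.exp (2 * ((0.01 + 0.2) * Y - a)) +
                6 * (Real.exp (2 * ((0.01 + 0.2) * Y - a)) * Real.exp ((0.2 - 0.98) * Y + a))) := by
            rw [pow_add]
            ring
          rw [h3]
          have h4 : (82 * Ca) ^ 2 * M * Y ^ (C + 2) * (Real.exp (2 * ((0.01 + 0.2) * Y - a)) +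
                6 * (Real.exp (2 * ((0.01 + 0.2) * Y - a)) * Real.exp ((0.2 - 0.98) * Y + a))) ≤
              (82 * Ca) ^ 2 * M * Y ^ (C + 2) * (7 * Real.exp (-(0.045 * Y))) := by
            apply mul_le_mul_of_nonneg_left _ (by positivity)
            linarith
          have h5 := fin_est (D := 7 * (82 * Ca) ^ 2 * M) (n := C + 2) hY1 hy2
          have h7 : (82 * Ca) ^ 2 * M * Y ^ (C + 2) * (7 * Real.exp (-(0.045 * Y))) =
              7 * (82 * Ca) ^ 2 * M * Y ^ (C + 2) * Real.exp (-(0.045 * Y)) := by ring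
          linarith
        have p2 : ∑ f ∈ Icc 2 (Fc Y), ∑ χ ∈ prm f (Good Y B0),
              ∑ k ∈ (FK (Kc Y + 1)).filter (fun k : ℤ => ¬ |(k : ℝ)| ≤ T),
                ‖∏ i, PX χ (zY Y) (ty i) (d i) k‖ ^ 2 ≤ 1 / 2 * (1 / Y ^ A) := by
          have h1 := core hM (Fc Y) (Kc Y + 1) (zY Y) hFp (by omega) ty d j
            ((FK (Kc Y + 1)).filter (fun k : ℤ => ¬ |(k : ℝ)| ≤ T)) (filter_subset _ _)
            (fun f => Good Y B0) ((3362 * Cb) ^ 2 * Y ^ 4 * Real.exp (-(0.18 * Y))) (by positivity) (by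
              intro f hf χ hχ k hk
              rw [mem_filter] at hk
              obtain ⟨hk1, hk2⟩ := hk
              push Not at hk2
              rw [mem_Icc] at hf
              have hne : NeZero f := ⟨by omega⟩
              have hTp : 0 < T := Real.exp_pos _
              have hk0 : k ≠ 0 := by
                rintro rfl
                rw [Int.cast_zero, abs_zero] at hk2
                linarith
              have h1 := hB f hne χ (zY Y) (ty j) (d j) k htj hk0
              have hf2 : (f : ℝ) ≤ Real.exp (Y / 100) := by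
                have : (f : ℝ) ≤ Fc Y := by exact_mod_cast hf.2
                exact this.trans (Fc_le Y)
              have hk3 : |(k : ℝ)| ≤ Real.exp (0.505 * Y) := (fk_le hk1).trans (Kc_le Y)
              have q1 : |(k : ℝ)| ^ (1 / 2 : ℝ) ≤ Real.exp (0.2525 * Y) := by
                calc |(k : ℝ)| ^ (1 / 2 : ℝ) ≤ (Real.exp (0.505 * Y)) ^ (1 / 2 : ℝ) :=
                      Real.rpow_le_rpow (abs_nonneg _) hk3 (by norm_num)
                  _ = Real.exp (0.2525 * Y) := by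
                      rw [← Real.exp_mul]
                      congr 1
                      ring
              have q2 : |(k : ℝ)| ^ (-(1 / 2) : ℝ) ≤ Real.exp (-(0.1 * Y)) := by
                calc |(k : ℝ)| ^ (-(1 / 2) : ℝ) ≤ T ^ (-(1 / 2) : ℝ) :=
                      Real.rpow_le_rpow_of_nonpos hTp hk2.le (by norm_num)
                  _ = Real.exp (-(0.1 * Y)) := by
                      rw [hT, ← Real.exp_mul]
                      congr 1
                      ring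
              have q3 : |(k : ℝ)| ^ (1 / 2 : ℝ) * Real.exp (-((d j : ℝ) / 20)) +
                  |(k : ℝ)| ^ (-(1 / 2) : ℝ) ≤ 2 * Real.exp (-(0.1 * Y)) := by
                have q4 : |(k : ℝ)| ^ (1 / 2 : ℝ) * Real.exp (-((d j : ℝ) / 20)) ≤ Real.exp (-(0.1 * Y)) := by
                  calc |(k : ℝ)| ^ (1 / 2 : ℝ) * Real.exp (-((d j : ℝ) / 20))
                      ≤ Real.exp (0.2525 * Y) * Real.exp (-((d j : ℝ) / 20)) :=
                        mul_le_mul_of_nonneg_right q1 (Real.exp_pos _).le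
                    _ ≤ Real.exp (-(0.1 * Y)) := by
                        rw [← Real.exp_add]
                        apply Real.exp_le_exp.mpr
                        have : (d j : ℝ) / 20 = a := rfl
                        rw [this]
                        linarith
                linarith
              have h2 : ‖PX χ (zY Y) (ty j) (d j) k‖ ≤ 3362 * Cb * Y ^ 2 * Real.exp (-(0.09 * Y)) := by
                refine h1.trans ?_
                calc Cb * f * (1 + (d j : ℝ)) ^ 2 * (|(k : ℝ)| ^ (1 / 2 : ℝ) * Real.exp (-((d j : ℝ) / 20)) +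
                      |(k : ℝ)| ^ (-(1 / 2) : ℝ))
                    ≤ Cb * Real.exp (Y / 100) * (41 * Y) ^ 2 * (2 * Real.exp (-(0.1 * Y))) := by
                      apply mul_le_mul _ q3 (by positivity) (by positivity)
                      apply mul_le_mul _ _ (by positivity) (by positivity)
                      · exact mul_le_mul_of_nonneg_left hf2 (by linarith)
                      · exact pow_le_pow_left₀ (by positivity) hd41 2
                  _ = 3362 * Cb * Y ^ 2 * Real.exp (-(0.09 * Y)) := by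
                      have e : Real.exp (-(0.09 * Y)) = Real.exp (Y / 100) * Real.exp (-(0.1 * Y)) := by
                        rw [← Real.exp_add]
                        congr 1
                        ring
                      rw [e]
                      ring
              calc ‖PX χ (zY Y) (ty j) (d j) k‖ ^ 2 ≤ (3362 * Cb * Y ^ 2 * Real.exp (-(0.09 * Y))) ^ 2 :=
                    pow_le_pow_left₀ (norm_nonneg _) h2 2
                _ = (3362 * Cb) ^ 2 * Y ^ 4 * Real.exp (-(0.18 * Y)) := by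
                    rw [mul_pow, mul_pow, ← Real.exp_nat_mul, ← pow_mul]
                    congr 2
                    push_cast
                    ring)
          refine h1.trans ?_
          have h2 := hfac (Kc Y + 1) 0.505 (Kc1_le hY0.le)
          refine (mul_le_mul_of_nonneg_left h2 (by positivity)).trans ?_
          have e1 : Real.exp (-(0.18 * Y)) ≤ Real.exp (-(0.045 * Y)) :=
            Real.exp_le_exp.mpr (by linarith)
          have e2 : Real.exp (-(0.18 * Y)) * Real.exp ((0.505 - 0.98) * Y + a) ≤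
              Real.exp (-(0.045 * Y)) := by
            rw [← Real.exp_add]
            exact Real.exp_le_exp.mpr (by linarith)
          have h3 : (3362 * Cb) ^ 2 * Y ^ 4 * Real.exp (-(0.18 * Y)) *
              (M * Y ^ C * (1 + 6 * Real.exp ((0.505 - 0.98) * Y + a))) =
              (3362 * Cb) ^ 2 * M * Y ^ (C + 4) * (Real.exp (-(0.18 * Y)) +
                6 * (Real.exp (-(0.18 * Y)) * Real.exp ((0.505 - 0.98) * Y + a))) := by
            rw [pow_add]
            ring
          rw [h3]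
          have h4 : (3362 * Cb) ^ 2 * M * Y ^ (C + 4) * (Real.exp (-(0.18 * Y)) +
                6 * (Real.exp (-(0.18 * Y)) * Real.exp ((0.505 - 0.98) * Y + a))) ≤
              (3362 * Cb) ^ 2 * M * Y ^ (C + 4) * (7 * Real.exp (-(0.045 * Y))) := by
            apply mul_le_mul_of_nonneg_left _ (by positivity)
            linarith
          have h5 := fin_est (D := 7 * (3362 * Cb) ^ 2 * M) (n := C + 4) hY1 hy3
          have h7 : (3362 * Cb) ^ 2 * M * Y ^ (C + 4) * (7 * Real.exp (-(0.045 * Y))) =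
              7 * (3362 * Cb) ^ 2 * M * Y ^ (C + 4) * Real.exp (-(0.045 * Y)) := by ring
          linarith
        linarith

theorem s_MSQ (hM : S_MSP) (hA : S_SMA) (hB : S_SMB) : S_MSQ := by
  intro A
  obtain ⟨B0, Y₀, h0⟩ := sd_bound hM hA hB (A + 21)
  refine ⟨B0, max Y₀ (961 * 41 ^ 20), fun Y hY => ?_⟩
  have hy0 : Y₀ ≤ Y := (le_max_left _ _).trans hY
  have hyc : (961 : ℝ) * 41 ^ 20 ≤ Y := (le_max_right _ _).trans hY
  have hY1 : 1 ≤ Y := le_trans (by norm_num) hyc
  have hY0 : 0 < Y := by linarith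
  have hcard : ((DY Y).card : ℝ) ≤ (41 * Y) ^ 10 := by
    refine (Pool.Agent.Q95.KS.DY_card Y).trans (pow_le_pow_left₀ (Nat.cast_nonneg _) ?_ 10)
    have h2 : (2 : ℝ) ≤ Y := le_trans (by norm_num) hyc
    push_cast
    have := Nat.floor_le (show 0 ≤ 20 * (Y + 1) by linarith)
    linarith
  have hpt : ∀ (f : ℕ) (χ : DirichletCharacter ℂ f) (k : ℤ), ‖AX χ Y k‖ ^ 2 ≤
      961 * (DY Y).card * ∑ d ∈ DY Y, ‖∏ i, PX χ (zY Y) (ty i) (d i) k‖ ^ 2 := by
    intro f χ k
    have h1 : ‖AX χ Y k‖ ≤ ∑ d ∈ DY Y, 31 * ‖∏ i, PX χ (zY Y) (ty i) (d i) k‖ := by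
      unfold AX
      refine (norm_sum_le _ _).trans (sum_le_sum fun d _ => ?_)
      rw [norm_mul]
      apply mul_le_mul_of_nonneg_right _ (norm_nonneg _)
      have := Pool.Agent.Q95.KS.ed_bound d
      rw [Complex.norm_intCast]
      exact this
    calc ‖AX χ Y k‖ ^ 2 ≤ (∑ d ∈ DY Y, 31 * ‖∏ i, PX χ (zY Y) (ty i) (d i) k‖) ^ 2 :=
          pow_le_pow_left₀ (norm_nonneg _) h1 2
      _ ≤ (DY Y).card * ∑ d ∈ DY Y, (31 * ‖∏ i, PX χ (zY Y) (ty i) (d i) k‖) ^ 2 :=
          sq_sum_le_card_mul_sum_sq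
      _ = 961 * (DY Y).card * ∑ d ∈ DY Y, ‖∏ i, PX χ (zY Y) (ty i) (d i) k‖ ^ 2 := by
          simp only [mul_pow, ← mul_sum]
          ring
  calc ∑ f ∈ Icc 2 (Fc Y), ∑ χ ∈ prm f (Good Y B0), ∑ k ∈ FK (Kc Y + 1), ‖AX χ Y k‖ ^ 2
      ≤ ∑ f ∈ Icc 2 (Fc Y), ∑ χ ∈ prm f (Good Y B0), ∑ k ∈ FK (Kc Y + 1),
        961 * (DY Y).card * ∑ d ∈ DY Y, ‖∏ i, PX χ (zY Y) (ty i) (d i) k‖ ^ 2 :=
        sum_le_sum fun f _ => sum_le_sum fun χ _ => sum_le_sum fun k _ => hpt f χ k
    _ = 961 * (DY Y).card * ∑ d ∈ DY Y, ∑ f ∈ Icc 2 (Fc Y), ∑ χ ∈ prm f (Good Y B0),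
        ∑ k ∈ FK (Kc Y + 1), ‖∏ i, PX χ (zY Y) (ty i) (d i) k‖ ^ 2 := by
        simp only [← mul_sum]
        congr 1
        refine Eq.symm ?_
        refine sum_comm.trans (sum_congr rfl fun f _ => ?_)
        refine sum_comm.trans (sum_congr rfl fun χ _ => ?_)
        exact sum_comm
    _ ≤ 961 * (DY Y).card * ∑ d ∈ DY Y, 1 / Y ^ (A + 21) := by
        apply mul_le_mul_of_nonneg_left _ (by positivity)
        exact sum_le_sum fun d hd => h0 Y hy0 d hd
    _ = 961 * (DY Y).card ^ 2 * (1 / Y ^ (A + 21)) := by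
        rw [sum_const, nsmul_eq_mul]
        ring
    _ ≤ 961 * ((41 * Y) ^ 10) ^ 2 * (1 / Y ^ (A + 21)) := by
        apply mul_le_mul_of_nonneg_right _ (by positivity)
        apply mul_le_mul_of_nonneg_left _ (by norm_num)
        exact pow_le_pow_left₀ (Nat.cast_nonneg _) hcard 2
    _ = (961 * 41 ^ 20) / Y * (1 / Y ^ A) := by
        field_simp
        rw [pow_add]
        ring
    _ ≤ 1 * (1 / Y ^ A) := by
        apply mul_le_mul_of_nonneg_right _ (by positivity)
        rw [div_le_one hY0]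
        exact hyc
    _ = 1 / Y ^ A := one_mul _

end Pool.Agent.L7h76.BW
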