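import Pool.Agent.L7h88.BW.Stm
import Pool.Agent.Q298.KS.Wt

/-! Project BW (helper88): factors with a character from partial sums (adaptation of `Pool/Agent/Q298/KS/Wt.lean`). -/

set_option autoImplicit false

namespace Pool.Agent.L7h76.BW

open Finset
open Pool.Agent.H376R2.MR (ch DP FK w)
open Pool.Agent.Q240.KS (cf sp)
open Pool.Agent.Q298.KS
open Pool.Agent.L7h88.BW (PX)

theorem PX_eq {q : ℕ} (χ : DirichletCharacter ℂ q) (z : ℕ) (t : Fin 3) (d : ℕ) (k : ℤ) :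
    PX χ z t d k = ∑ n ∈ Ico (lo d) (hi d), ((cf z t d n : ℝ) : ℂ) * (χ (n : ZMod q) * ch k (Real.log n)) := by
  unfold PX
  rw [← sum_sp_eq d (fun n => ((cf z t d n : ℝ) : ℂ) * (χ (n : ZMod q) * ch k (Real.log n)))]
  · refine sum_congr rfl fun n _ => ?_
    ring
  · intro n h1 h
    simp [cf_lo (z := z) (t := t) h1 h]

/-- a smooth factor from the partial sums of `χ(n) n^{-ik}` -/
theorem PX_le_of_part {q : ℕ} (χ : DirichletCharacter ℂ q) (z : ℕ) (t : Fin 3) (d : ℕ) (k : ℤ) (B : ℝ)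
    (hB0 : 0 ≤ B) (ht : t ≠ 0)
    (hB : ∀ m, lo d ≤ m → m ≤ hi d → ‖∑ n ∈ Ico (lo d) m, χ (n : ZMod q) * ch k (Real.log n)‖ ≤ B) :
    ‖PX χ z t d k‖ ≤ 100 * B * (1 + d) * Real.exp (-((d : ℝ) / 20)) := by
  have h0 : (0 : ℝ) ≤ d := Nat.cast_nonneg d
  rw [PX_eq]
  have e : ∑ n ∈ Ico (lo d) (hi d), ((cf z t d n : ℝ) : ℂ) * (χ (n : ZMod q) * ch k (Real.log n)) =
      ∑ n ∈ Ico (lo d) (hi d), (((fun n : ℕ => gw t d n / (n : ℝ)) n : ℝ) : ℂ) *
        (fun n : ℕ => χ (n : ZMod q) * ch k (Real.log n)) n := by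
    refine sum_congr rfl fun n _ => ?_
    rw [cf_gw ht]
  rw [e]
  have h1 := abel_window d (fun n : ℕ => gw t d n / (n : ℝ))
    ((20 * (1 + (d : ℝ)) + (1 + d)) * Real.exp (-(((d : ℝ) - 1) / 20))) B
    (fun n : ℕ => χ (n : ZMod q) * ch k (Real.log n)) hB0 (by positivity) (by simp only [gw_hi, zero_div])
    (fun n hn1 hn2 => var_div d (gw t d) (20 * (1 + (d : ℝ))) (1 + d) (by positivity) (by positivity)
      (fun n h1 h2 => gw_abs ((one_le_lo d).trans h1) h2)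
      (fun n h1 h2 => gw_var ((one_le_lo d).trans h1) h2) n hn1 hn2) hB
  refine h1.trans ?_
  have h2 := exp_lo d
  have h3 : 0 < Real.exp (-((d : ℝ) / 20)) := Real.exp_pos _
  calc 2 * B * ((20 * (1 + (d : ℝ)) + (1 + d)) * Real.exp (-(((d : ℝ) - 1) / 20)))
      ≤ 2 * B * ((20 * (1 + (d : ℝ)) + (1 + d)) * (2 * Real.exp (-((d : ℝ) / 20)))) := by gcongr
    _ = 84 * (B * (1 + d) * Real.exp (-((d : ℝ) / 20))) := by ring
    _ ≤ 100 * (B * (1 + d) * Real.exp (-((d : ℝ) / 20))) := by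
        have : 0 ≤ B * (1 + (d : ℝ)) * Real.exp (-((d : ℝ) / 20)) := by positivity
        linarith
    _ = _ := by ring

/-- a Moebius factor from the partial sums of `μ(n) χ(n) n^{-ik}`, `n ≤ z` -/
theorem PX_le_of_part0 {q : ℕ} (χ : DirichletCharacter ℂ q) (z : ℕ) (d : ℕ) (k : ℤ) (B : ℝ) (hB0 : 0 ≤ B)
    (hB : ∀ m, lo d ≤ m → m ≤ hi d → ‖∑ n ∈ Ico (lo d) m,
      (((if n ≤ z then ((ArithmeticFunction.moebius n : ℤ) : ℝ) else 0 : ℝ)) : ℂ) *
        (χ (n : ZMod q) * ch k (Real.log n))‖ ≤ B) :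
    ‖PX χ z 0 d k‖ ≤ 100 * B * Real.exp (-((d : ℝ) / 20)) := by
  have h0 : (0 : ℝ) ≤ d := Nat.cast_nonneg d
  rw [PX_eq]
  have e : ∑ n ∈ Ico (lo d) (hi d), ((cf z 0 d n : ℝ) : ℂ) * (χ (n : ZMod q) * ch k (Real.log n)) =
      ∑ n ∈ Ico (lo d) (hi d), (((fun n : ℕ => hw d n / (n : ℝ)) n : ℝ) : ℂ) *
        (fun n : ℕ => (((if n ≤ z then ((ArithmeticFunction.moebius n : ℤ) : ℝ) else 0 : ℝ)) : ℂ) *
        (χ (n : ZMod q) * ch k (Real.log n))) n := by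
    refine sum_congr rfl fun n _ => ?_
    unfold cf hw
    rw [if_pos rfl]
    push_cast
    ring
  rw [e]
  have h1 := abel_window d (fun n : ℕ => hw d n / (n : ℝ))
    ((20 + 1) * Real.exp (-(((d : ℝ) - 1) / 20))) B _ hB0 (by positivity)
    (by simp only [hw_hi, zero_div])
    (fun n hn1 hn2 => var_div d (hw d) 20 1 (by norm_num) (by norm_num)
      (fun n h1 h2 => by rw [abs_of_nonneg (hw_nonneg d n)]; exact hw_le_one d n)
      (fun n h1 h2 => hw_var d n ((one_le_lo d).trans h1)) n hn1 hn2) hB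
  refine h1.trans ?_
  have h2 := exp_lo d
  have h3 : 0 < Real.exp (-((d : ℝ) / 20)) := Real.exp_pos _
  calc 2 * B * ((20 + 1) * Real.exp (-(((d : ℝ) - 1) / 20)))
      ≤ 2 * B * ((20 + 1) * (2 * Real.exp (-((d : ℝ) / 20)))) := by gcongr
    _ = 84 * (B * Real.exp (-((d : ℝ) / 20))) := by ring
    _ ≤ 100 * (B * Real.exp (-((d : ℝ) / 20))) := by
        have : 0 ≤ B * Real.exp (-((d : ℝ) / 20)) := by positivity
        linarith
    _ = _ := by ring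

end Pool.Agent.L7h76.BW
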