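import Pool.Agent.L7h88.BW.Stm
import Pool.Agent.Y882.Wts

/-! Project BW (helper88), part SIVE: the sieve in one window. -/

set_option autoImplicit false

namespace Pool.Agent.L7h76.BW

open Finset Filter
open Pool.Agent.L7h88.BW
open Pool.Agent.Y882 (wts sgs)

lemma one_le_sgs' (n : ℕ) : 1 ≤ sgs n := by
  unfold sgs
  have h1 : ∀ p ∈ n.primeFactors.erase 2, (1 : ℝ) ≤ ((p : ℝ) - 1) / ((p : ℝ) - 2) := by
    intro p hp
    rw [mem_erase] at hp
    have h2 := (Nat.prime_of_mem_primeFactors hp.2).two_le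
    have h3 : (3 : ℝ) ≤ p := by
      have : 3 ≤ p := by omega
      exact_mod_cast this
    rw [le_div_iff₀ (by linarith)]
    linarith
  calc (1 : ℝ) = ∏ p ∈ n.primeFactors.erase 2, (1 : ℝ) := by simp
    _ ≤ _ := Finset.prod_le_prod (fun _ _ => zero_le_one) h1

/-- the primes of the window -/
noncomputable def Wp (u κ : ℝ) : Finset ℕ :=
  (Icc 1 ⌊Real.exp (u + κ)⌋₊).filter (fun p : ℕ => p.Prime ∧ u < Real.log p)

lemma mem_Wp {u κ : ℝ} {p : ℕ} (h : p ∈ Wp u κ) :
    p.Prime ∧ u < Real.log p ∧ (p : ℝ) ≤ Real.exp (u + κ) ∧ Real.log p ≤ u + κ := by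
  unfold Wp at h
  rw [mem_filter, mem_Icc] at h
  obtain ⟨⟨h1, h2⟩, h3, h4⟩ := h
  have h5 : (p : ℝ) ≤ Real.exp (u + κ) := (Nat.le_floor_iff (Real.exp_pos _).le).1 h2
  have h6 : (0 : ℝ) < p := by exact_mod_cast h1
  exact ⟨h3, h4, h5, (Real.log_le_iff_le_exp h6).2 h5⟩

lemma th_eq (u κ : ℝ) (q a : ℕ) :
    th u κ q a = ∑ p ∈ (Wp u κ).filter (fun p => p ≡ a [MOD q]), Real.log p := by
  unfold th Wp
  rw [filter_filter]
  apply sum_congr _ (fun _ _ => rfl)
  apply filter_congr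
  intro p _
  tauto

lemma th_one (u κ : ℝ) : th u κ 1 0 = ∑ p ∈ Wp u κ, Real.log p := by
  rw [th_eq, filter_true_of_mem]
  intro p _
  exact Nat.modEq_one

/-- the final computation -/
lemma sive_fin {Y c₁ c0 G N : ℝ} (hY10 : 10 ≤ Y) (hc₁ : 0 < c₁) (hc0 : 0 < c0) (hG0 : 0 < G)
    (hYc : 1 + 40 / (c₁ * c0) ≤ Y)
    (h : c₁ * G * (c0 / (Y + 3)) - 5 * (Y + 3) * (G / Y ^ 4) ≤ (Y + 1) * N) :
    c₁ * c0 / 8 * G / Y ^ 2 ≤ N := by
  have hY0 : 0 < Y := by linarith
  have hcc : 0 < c₁ * c0 := by positivity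
  have k1 : c₁ * c0 * G / (2 * Y) ≤ c₁ * G * (c0 / (Y + 3)) := by
    have e : c₁ * G * (c0 / (Y + 3)) = c₁ * c0 * G / (Y + 3) := by ring
    rw [e]
    apply div_le_div_of_nonneg_left (by positivity) (by positivity)
    linarith
  have k2 : 5 * (Y + 3) * (G / Y ^ 4) ≤ 10 * G / Y ^ 3 := by
    have e : 10 * G / Y ^ 3 = 10 * Y * (G / Y ^ 4) := by
      field_simp
    rw [e]
    apply mul_le_mul_of_nonneg_right _ (by positivity)
    linarith
  have k3 : 10 * G / Y ^ 3 ≤ c₁ * c0 * G / (4 * Y) := by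
    rw [div_le_div_iff₀ (by positivity) (by positivity)]
    have h10 : 40 ≤ c₁ * c0 * Y ^ 2 := by
      have h11 : 40 / (c₁ * c0) ≤ Y := by linarith
      rw [div_le_iff₀ hcc] at h11
      have h12 : c₁ * c0 * Y ≤ c₁ * c0 * Y ^ 2 := by
        apply mul_le_mul_of_nonneg_left _ hcc.le
        calc Y = Y * 1 := (mul_one Y).symm
          _ ≤ Y * Y := mul_le_mul_of_nonneg_left (by linarith) hY0.le
          _ = Y ^ 2 := by ring
      linarith
    calc 10 * G * (4 * Y) = G * Y * 40 := by ring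
      _ ≤ G * Y * (c₁ * c0 * Y ^ 2) := mul_le_mul_of_nonneg_left h10 (by positivity)
      _ = c₁ * c0 * G * Y ^ 3 := by ring
  have k4 : c₁ * c0 * G / (4 * Y) ≤ (Y + 1) * N := by
    have e : c₁ * c0 * G / (2 * Y) = c₁ * c0 * G / (4 * Y) + c₁ * c0 * G / (4 * Y) := by
      field_simp
      ring
    linarith
  have hN : 0 ≤ N := by
    have h1 : 0 ≤ (Y + 1) * N := le_trans (by positivity) k4
    exact nonneg_of_mul_nonneg_right h1 (by linarith)
  have k5 : (Y + 1) * N ≤ 2 * Y * N := by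
    apply mul_le_mul_of_nonneg_right _ hN
    linarith
  have k6 : c₁ * c0 / 8 * G / Y ^ 2 = c₁ * c0 * G / (4 * Y) / (2 * Y) := by
    field_simp
    ring
  rw [k6, div_le_iff₀ (by positivity)]
  linarith

theorem s_SIVE : S_SIVE := by
  classical
  obtain ⟨c0, hc0, X0, HW⟩ := wts (1 / 250) (1 / 600) (1 / 200) (by norm_num) (by norm_num) (by norm_num)
    (by norm_num) (by norm_num)
  refine ⟨1 / 700, by norm_num, fun c₁ hc₁ => ?_⟩
  refine ⟨c₁ * c0 / 8, max (max 10 X0) (1 + 40 / (c₁ * c0)), by positivity, ?_⟩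
  intro Y hY κ u E hκ1 hκ2 hu1 hu2 hEe hE1 hE2 hth herr
  have hY10 : 10 ≤ Y := (le_max_left _ _).trans ((le_max_left _ _).trans hY)
  have hYX : (X0 : ℝ) ≤ Y := (le_max_right _ _).trans ((le_max_left _ _).trans hY)
  have hYc : 1 + 40 / (c₁ * c0) ≤ Y := (le_max_right _ _).trans hY
  have hY0 : 0 < Y := by linarith
  have hκ0 : 0 < κ := (Real.exp_pos _).trans_le hκ1
  -- the parameter of the weights
  set X : ℕ := ⌈Real.exp (Y + 2)⌉₊ with hX
  have hX1 : Real.exp (Y + 2) ≤ X := Nat.le_ceil _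
  have hX2 : (X : ℝ) ≤ Real.exp (Y + 3) := by
    have h1 : (X : ℝ) < Real.exp (Y + 2) + 1 := Nat.ceil_lt_add_one (Real.exp_pos _).le
    have h2 : Real.exp (Y + 3) = Real.exp (Y + 2) * Real.exp 1 := by
      rw [← Real.exp_add]
      congr 1
      ring
    have h3 := Real.exp_one_gt_d9
    have h4 : 1 ≤ Real.exp (Y + 2) := Real.one_le_exp (by linarith)
    rw [h2]
    nlinarith
  have hXX0 : X0 ≤ X := by
    have h1 : (X0 : ℝ) ≤ X := by
      have h2 := Real.add_one_le_exp (Y + 2)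
      linarith
    exact_mod_cast h1
  have hXp : (0 : ℝ) < X := (Real.exp_pos _).trans_le hX1
  have hlX1 : Y + 2 ≤ Real.log X := (Real.le_log_iff_exp_le hXp).2 hX1
  have hlX2 : Real.log X ≤ Y + 3 := (Real.log_le_iff_le_exp hXp).2 hX2
  obtain ⟨c, w1, w2, w3, w4⟩ := HW X hXX0
  -- powers of X
  have hXr1 : (X : ℝ) ^ (1 / 200 : ℝ) ≤ Real.exp (Y / 100) := by
    calc (X : ℝ) ^ (1 / 200 : ℝ) ≤ (Real.exp (Y + 3)) ^ (1 / 200 : ℝ) :=
          Real.rpow_le_rpow hXp.le hX2 (by norm_num)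
      _ = Real.exp ((Y + 3) * (1 / 200)) := by rw [← Real.exp_mul]
      _ ≤ Real.exp (Y / 100) := Real.exp_le_exp.mpr (by linarith)
  have hXr2 : Real.exp (1 / 700 * Y) < (X : ℝ) ^ (1 / 600 : ℝ) := by
    calc Real.exp (1 / 700 * Y) < Real.exp ((Y + 2) * (1 / 600)) := Real.exp_lt_exp.mpr (by linarith)
      _ = (Real.exp (Y + 2)) ^ (1 / 600 : ℝ) := by rw [← Real.exp_mul]
      _ ≤ (X : ℝ) ^ (1 / 600 : ℝ) := Real.rpow_le_rpow (Real.exp_pos _).le hX1 (by norm_num)
  have hcF : ∀ d, c d ≠ 0 → d ∈ Icc 1 (Fc Y) := by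
    intro d hd
    obtain ⟨h1, h2⟩ := w2 d hd
    rw [mem_Icc]
    refine ⟨Nat.pos_of_ne_zero h1.ne_zero, ?_⟩
    unfold Fc
    exact Nat.le_floor (h2.trans hXr1)
  -- the good primes
  set GS : Finset ℕ := (Icc 1 ⌊Real.exp (u + κ)⌋₊).filter (fun p : ℕ => p.Prime ∧ u < Real.log p ∧
    ∀ l : ℕ, l.Prime → l ∣ E - p → Real.exp (1 / 700 * Y) < l) with hGS
  have hgood : ∀ p ∈ Wp u κ, Real.log p * ∑ d ∈ (E - p).divisors, c d ≤
      (Y + 1) * (if p ∈ GS then 1 else 0) := by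
    intro p hp
    obtain ⟨hp1, hp2, hp3, hp4⟩ := mem_Wp hp
    have hpE : p < E := by
      have : (p : ℝ) < E := lt_of_le_of_lt hp3 hE1
      exact_mod_cast this
    have h1 := w3 (E - p) (by omega)
    have hlp : 0 ≤ Real.log p := Real.log_natCast_nonneg p
    have hlpY : Real.log p ≤ Y + 1 := by linarith
    refine (mul_le_mul_of_nonneg_left h1 hlp).trans ?_
    by_cases hc : ∀ l : ℕ, l.Prime → l ∣ E - p → (X : ℝ) ^ (1 / 600 : ℝ) ≤ l
    · rw [if_pos hc]
      have hpG : p ∈ GS := by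
        rw [hGS, mem_filter]
        unfold Wp at hp
        rw [mem_filter] at hp
        exact ⟨hp.1, hp.2.1, hp.2.2, fun l hl hld => hXr2.trans_le (hc l hl hld)⟩
      rw [if_pos hpG]
      linarith
    · rw [if_neg hc, mul_zero]
      split_ifs <;> linarith
  -- lower bound of the sifted sum
  have hsum1 : ∑ p ∈ Wp u κ, Real.log p * ∑ d ∈ (E - p).divisors, c d ≤ (Y + 1) * (GS.card : ℝ) := by
    refine (sum_le_sum hgood).trans ?_
    rw [← mul_sum]
    apply mul_le_mul_of_nonneg_left _ (by linarith)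
    rw [← sum_filter, sum_const, nsmul_eq_mul, mul_one]
    have : (Wp u κ).filter (fun p => p ∈ GS) ⊆ GS := by
      intro p hp
      exact (mem_filter.1 hp).2
    exact_mod_cast card_le_card this
  have hsum2 : ∑ p ∈ Wp u κ, Real.log p * ∑ d ∈ (E - p).divisors, c d =
      ∑ d ∈ Icc 1 (Fc Y), c d * th u κ d E := by
    have e1 : ∀ p ∈ Wp u κ, Real.log p * ∑ d ∈ (E - p).divisors, c d =
        ∑ d ∈ Icc 1 (Fc Y), (if p ≡ E [MOD d] then c d * Real.log p else 0) := by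
      intro p hp
      obtain ⟨hp1, hp2, hp3, hp4⟩ := mem_Wp hp
      have hpE : p < E := by
        have : (p : ℝ) < E := lt_of_le_of_lt hp3 hE1
        exact_mod_cast this
      have e2 : ∑ d ∈ (E - p).divisors, c d =
          ∑ d ∈ Icc 1 (Fc Y), (if p ≡ E [MOD d] then c d else 0) := by
        rw [← sum_filter]
        apply sum_congr_of_eq_on_inter
        · intro d hd hnd
          by_contra hne
          apply hnd
          rw [mem_filter]
          exact ⟨hcF d hne, (Nat.modEq_iff_dvd' hpE.le).2 (Nat.dvd_of_mem_divisors hd)⟩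
        · intro d hd hnd
          exfalso
          apply hnd
          rw [mem_filter] at hd
          rw [Nat.mem_divisors]
          exact ⟨(Nat.modEq_iff_dvd' hpE.le).1 hd.2, by omega⟩
        · intro d _ _
          rfl
      rw [e2, mul_sum]
      apply sum_congr rfl
      intro d _
      split_ifs
      · ring
      · ring
    rw [sum_congr rfl e1, sum_comm]
    apply sum_congr rfl
    intro d _
    rw [th_eq, mul_sum, sum_filter]
  have hth0 : ∀ d ∈ Icc 1 (Fc Y), ¬ d.Coprime E → th u κ d E = 0 := by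
    intro d hd hnc
    rw [mem_Icc] at hd
    rw [th_eq]
    apply sum_eq_zero
    intro p hp
    exfalso
    rw [mem_filter] at hp
    obtain ⟨hp1, hp2, hp3, hp4⟩ := mem_Wp hp.1
    obtain ⟨l, hl, hld, hlE⟩ := Nat.Prime.not_coprime_iff_dvd.1 hnc
    have h1 : l ∣ p := by
      have h2 : p ≡ E [MOD l] := hp.2.of_dvd hld
      exact (h2.dvd_iff dvd_rfl).2 hlE
    have h3 : l = p := (Nat.prime_dvd_prime_iff_eq hl hp1).1 h1
    have h4 : l ≤ Fc Y := (Nat.le_of_dvd hd.1 hld).trans hd.2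
    have h5 : (p : ℝ) ≤ Real.exp (Y / 100) := by
      rw [← h3]
      have : (l : ℝ) ≤ Fc Y := by exact_mod_cast h4
      exact this.trans (Nat.floor_le (Real.exp_pos _).le)
    have h6 : Real.log p ≤ Y / 100 := (Real.log_le_iff_le_exp (by exact_mod_cast hp1.pos)).2 h5
    linarith
  have hsum3 : ∑ d ∈ Icc 1 (Fc Y), c d * th u κ d E =
      ∑ d ∈ (Icc 1 (Fc Y)).filter (fun q => q.Coprime E), c d * th u κ d E := by
    rw [sum_filter]
    apply sum_congr rfl
    intro d hd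
    split_ifs with h
    · rfl
    · rw [hth0 d hd h, mul_zero]
  set θ := th u κ 1 0 with hθ
  have hθ0 : 0 ≤ θ := le_trans (by positivity) hth
  have hsum4 : ∑ d ∈ (Icc 1 (Fc Y)).filter (fun q => q.Coprime E), c d * (1 / (Nat.totient d : ℝ)) =
      ∑ d ∈ (Icc 1 ⌊(X : ℝ) ^ (1 / 200 : ℝ)⌋₊).filter (fun d => Nat.Coprime E d),
          c d * (1 / (Nat.totient d : ℝ)) := by
    symm
    apply sum_subset
    · intro d hd
      rw [mem_filter, mem_Icc] at hd ⊢
      refine ⟨⟨hd.1.1, ?_⟩, hd.2.symm⟩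
      refine hd.1.2.trans ?_
      unfold Fc
      exact Nat.floor_le_floor hXr1
    · intro d hd hnd
      by_cases h : c d = 0
      · rw [h, zero_mul]
      · exfalso
        apply hnd
        rw [mem_filter, mem_Icc] at hd ⊢
        exact ⟨⟨hd.1.1, Nat.le_floor (w2 d h).2⟩, hd.2.symm⟩
  have hE1' : 1 ≤ E := by
    have h1 : (0 : ℝ) < E := (Real.exp_pos _).trans hE1
    exact_mod_cast h1
  have hE2' : E ≤ 2 * X := by
    have h1 : (E : ℝ) ≤ X := hE2.trans hX1
    have h2 : E ≤ X := by exact_mod_cast h1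
    omega
  have h4 := w4 E hE1' hE2' hEe
  rw [← hsum4] at h4
  have h5 : c0 / Real.log X ≤ ∑ d ∈ (Icc 1 (Fc Y)).filter (fun q => q.Coprime E),
      c d * (1 / (Nat.totient d : ℝ)) := by
    refine le_trans ?_ h4
    have hs := one_le_sgs' E
    have : 0 ≤ c0 / Real.log X := by
      apply div_nonneg hc0.le
      linarith
    nlinarith
  -- the error
  have h6 : |∑ d ∈ (Icc 1 (Fc Y)).filter (fun q => q.Coprime E),
      c d * (th u κ d E - θ / (Nat.totient d : ℝ))| ≤ 5 * (Y + 3) * (κ * Real.exp Y / Y ^ 4) := by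
    refine (abs_sum_le_sum_abs _ _).trans ?_
    calc ∑ d ∈ (Icc 1 (Fc Y)).filter (fun q => q.Coprime E),
        |c d * (th u κ d E - θ / (Nat.totient d : ℝ))|
        ≤ ∑ d ∈ (Icc 1 (Fc Y)).filter (fun q => q.Coprime E),
          5 * (Y + 3) * |th u κ d E - θ / (Nat.totient d : ℝ)| := by
          refine sum_le_sum fun d _ => ?_
          rw [abs_mul]
          apply mul_le_mul_of_nonneg_right _ (abs_nonneg _)
          have := w1 d
          linarith
      _ = 5 * (Y + 3) * ∑ d ∈ (Icc 1 (Fc Y)).filter (fun q => q.Coprime E),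
          |th u κ d E - θ / (Nat.totient d : ℝ)| := by rw [mul_sum]
      _ ≤ _ := mul_le_mul_of_nonneg_left herr (by positivity)
  have h7 : ∑ d ∈ (Icc 1 (Fc Y)).filter (fun q => q.Coprime E), c d * th u κ d E =
      θ * ∑ d ∈ (Icc 1 (Fc Y)).filter (fun q => q.Coprime E), c d * (1 / (Nat.totient d : ℝ)) +
      ∑ d ∈ (Icc 1 (Fc Y)).filter (fun q => q.Coprime E),
        c d * (th u κ d E - θ / (Nat.totient d : ℝ)) := by
    rw [mul_sum, ← sum_add_distrib]
    apply sum_congr rfl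
    intro d _
    ring
  have h8 := (abs_le.1 h6).1
  have h9 : c₁ * κ * Real.exp Y * (c0 / (Y + 3)) ≤ θ * ∑ d ∈ (Icc 1 (Fc Y)).filter (fun q => q.Coprime E),
      c d * (1 / (Nat.totient d : ℝ)) := by
    apply mul_le_mul hth _ (by positivity) hθ0
    refine le_trans ?_ h5
    apply div_le_div_of_nonneg_left hc0.le (by linarith) hlX2
  rw [hsum2, hsum3, h7] at hsum1
  have hG0 : 0 < κ * Real.exp Y := by positivity
  have h10 : c₁ * (κ * Real.exp Y) * (c0 / (Y + 3)) - 5 * (Y + 3) * (κ * Real.exp Y / Y ^ 4) ≤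
      (Y + 1) * (GS.card : ℝ) := by
    have e : c₁ * (κ * Real.exp Y) * (c0 / (Y + 3)) = c₁ * κ * Real.exp Y * (c0 / (Y + 3)) := by ring
    rw [e]
    linarith
  have h11 := sive_fin hY10 hc₁ hc0 hG0 hYc h10
  have e : c₁ * c0 / 8 * κ * Real.exp Y / Y ^ 2 = c₁ * c0 / 8 * (κ * Real.exp Y) / Y ^ 2 := by ring
  rw [e]
  exact h11

end Pool.Agent.L7h76.BW
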