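import Pool.Agent.L7h76.BW.Px

/-! Project BW (helper88), part SMA: nonprincipal characters, small height. -/

set_option autoImplicit false

namespace Pool.Agent.L7h76.BW

open Finset
open Pool.Agent.H376R2.MR (ch DP FK w)
open Pool.Agent.Q240.KS (cf sp)
open Pool.Agent.Q298.KS
open Pool.Agent.L7h88.BW (PX S_SMA)

lemma sum_range_zmod (q : ℕ) [NeZero q] (g : ZMod q → ℂ) :
    ∑ a ∈ range q, g (a : ZMod q) = ∑ x, g x := by
  refine Finset.sum_nbij' (fun a => (a : ZMod q)) (fun x => x.val) (fun a _ => mem_univ _)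
    (fun x _ => mem_range.2 (ZMod.val_lt x)) (fun a ha => ?_) (fun x _ => ?_) (fun a _ => rfl)
  · exact ZMod.val_cast_of_lt (mem_range.1 ha)
  · exact ZMod.natCast_zmod_val x

/-- partial sums of a nonprincipal character -/
lemma char_part {q : ℕ} [NeZero q] {χ : DirichletCharacter ℂ q} (hχ : χ ≠ 1) (N : ℕ) :
    ‖∑ n ∈ range N, χ (n : ZMod q)‖ ≤ q := by
  induction N using Nat.strong_induction_on with
  | _ N ih =>
    rcases lt_or_ge N q with h | h
    · refine (norm_sum_le _ _).trans ?_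
      calc ∑ n ∈ range N, ‖χ (n : ZMod q)‖ ≤ ∑ n ∈ range N, (1 : ℝ) :=
            sum_le_sum fun n _ => χ.norm_le_one _
        _ = N := by simp
        _ ≤ q := by exact_mod_cast h.le
    · obtain ⟨M, rfl⟩ := Nat.exists_eq_add_of_le h
      have hq : 0 < q := Nat.pos_of_ne_zero (NeZero.ne q)
      rw [sum_range_add, sum_range_zmod q (fun x => χ x), MulChar.sum_eq_zero_of_ne_one hχ, zero_add]
      have e : ∑ x ∈ range M, χ ((q + x : ℕ) : ZMod q) = ∑ x ∈ range M, χ (x : ZMod q) := by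
        refine sum_congr rfl fun x _ => ?_
        push_cast
        simp
      rw [e]
      exact ih M (by omega)

lemma ch_lip (k : ℤ) (x y : ℝ) : ‖ch k x - ch k y‖ ≤ |(k : ℝ)| * |x - y| := by
  have e : ch k x - ch k y = ch k y * (Complex.exp (Complex.I * ((-(k * (x - y)) : ℝ) : ℂ)) - 1) := by
    unfold ch
    rw [mul_sub, mul_one, ← Complex.exp_add]
    congr 2
    push_cast
    ring
  rw [e, norm_mul, norm_ch, one_mul]
  refine (Real.norm_exp_I_mul_ofReal_sub_one_le).trans ?_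
  rw [Real.norm_eq_abs, abs_neg, abs_mul]

/-- Abel summation with complex weights -/
theorem abelC_id (g : ℕ → ℂ) (z : ℕ → ℂ) (a m : ℕ) (ham : a ≤ m) :
    ∑ n ∈ Ico a m, g n * z n = g m * ∑ n ∈ Ico a m, z n -
      ∑ n ∈ Ico a m, (g (n + 1) - g n) * ∑ j ∈ Ico a (n + 1), z j := by
  induction m, ham using Nat.le_induction with
  | base => simp
  | succ m hm ih =>
    rw [sum_Ico_succ_top hm, sum_Ico_succ_top hm, ih,
      sum_Ico_succ_top hm (fun n => (g (n + 1) - g n) * ∑ j ∈ Ico a (n + 1), z j),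
      sum_Ico_succ_top hm]
    ring

theorem abelC_le (g : ℕ → ℂ) (z : ℕ → ℂ) (B : ℝ) (a b : ℕ) (hab : a ≤ b)
    (hB : ∀ m, a ≤ m → m ≤ b → ‖∑ n ∈ Ico a m, z n‖ ≤ B) :
    ‖∑ n ∈ Ico a b, g n * z n‖ ≤ B * (‖g b‖ + ∑ n ∈ Ico a b, ‖g (n + 1) - g n‖) := by
  rw [abelC_id g z a b hab]
  refine (norm_sub_le _ _).trans ?_
  rw [mul_add]
  apply add_le_add
  · rw [norm_mul, mul_comm]
    exact mul_le_mul_of_nonneg_right (hB b hab le_rfl) (norm_nonneg _)
  · rw [mul_sum]
    refine (norm_sum_le _ _).trans (sum_le_sum fun n hn => ?_)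
    rw [mem_Ico] at hn
    rw [norm_mul, mul_comm]
    exact mul_le_mul_of_nonneg_right (hB (n + 1) (by omega) (by omega)) (norm_nonneg _)

theorem s_SMA : S_SMA := by
  refine ⟨400, by norm_num, ?_⟩
  intro q hq χ z t d k hχ ht
  have hq1 : (1 : ℝ) ≤ q := by exact_mod_cast NeZero.one_le
  have hk0 : 0 ≤ |(k : ℝ)| := abs_nonneg _
  have hB : ∀ m, lo d ≤ m → m ≤ hi d →
      ‖∑ n ∈ Ico (lo d) m, χ (n : ZMod q) * ch k (Real.log n)‖ ≤ 4 * q * (1 + |(k : ℝ)|) := by
    intro m hm1 hm2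
    have e : ∑ n ∈ Ico (lo d) m, χ (n : ZMod q) * ch k (Real.log n) =
        ∑ n ∈ Ico (lo d) m, (fun n : ℕ => ch k (Real.log n)) n * (fun n : ℕ => χ (n : ZMod q)) n :=
      sum_congr rfl fun n _ => mul_comm _ _
    rw [e]
    refine (abelC_le (fun n : ℕ => ch k (Real.log n)) (fun n : ℕ => χ (n : ZMod q)) (2 * q) _ _ hm1 ?_).trans ?_
    · intro m' h1 _
      rw [sum_Ico_eq_sub _ h1]
      refine (norm_sub_le _ _).trans ?_
      have := char_part hχ m'
      have := char_part hχ (lo d)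
      linarith
    · simp only [norm_ch]
      have h1 : ∑ n ∈ Ico (lo d) m, ‖ch k (Real.log ((n + 1 : ℕ) : ℝ)) - ch k (Real.log n)‖ ≤
          |(k : ℝ)| * (1 + 1 / 10) := by
        calc ∑ n ∈ Ico (lo d) m, ‖ch k (Real.log ((n + 1 : ℕ) : ℝ)) - ch k (Real.log n)‖
            ≤ ∑ n ∈ Ico (lo d) m, |(k : ℝ)| * (1 / n) := by
              refine sum_le_sum fun n hn => ?_
              rw [mem_Ico] at hn
              refine (ch_lip _ _ _).trans ?_
              apply mul_le_mul_of_nonneg_left _ hk0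
              have h2 := log_succ_sub n ((one_le_lo d).trans hn.1)
              rw [abs_of_nonneg h2.1]
              exact h2.2
          _ ≤ ∑ n ∈ Ico (lo d) (hi d), |(k : ℝ)| * (1 / n) :=
              sum_le_sum_of_subset_of_nonneg (Ico_subset_Ico_right hm2) fun n _ _ => by positivity
          _ = |(k : ℝ)| * ∑ n ∈ Ico (lo d) (hi d), (1 : ℝ) / n := by rw [mul_sum]
          _ ≤ _ := mul_le_mul_of_nonneg_left (sum_inv_window d) hk0
      calc 2 * (q : ℝ) * (1 + ∑ n ∈ Ico (lo d) m, ‖ch k (Real.log ((n + 1 : ℕ) : ℝ)) - ch k (Real.log n)‖)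
          ≤ 2 * q * (1 + |(k : ℝ)| * (1 + 1 / 10)) := by
            apply mul_le_mul_of_nonneg_left _ (by positivity)
            linarith
        _ ≤ 4 * q * (1 + |(k : ℝ)|) := by nlinarith
  have h1 := PX_le_of_part χ z t d k (4 * q * (1 + |(k : ℝ)|)) (by positivity) ht hB
  refine h1.trans (le_of_eq ?_)
  ring

end Pool.Agent.L7h76.BW
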