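import Pool.Agent.L7h76.BW.Msq

/-! Project BW (helper88), part SML: characters to small moduli are good. -/

set_option autoImplicit false

namespace Pool.Agent.L7h76.BW

open Finset
open Pool.Agent.Q240.KS (zY)
open Pool.Agent.L7h88.BW

theorem s_SML (hA : S_SMA) (hC : S_SMC) (hM : S_MBX) : S_SML := by
  intro B B0
  obtain ⟨C1, h1⟩ := hM 6 B (B0 + 1)
  obtain ⟨Ca, hCa, hA⟩ := hA
  obtain ⟨Cc, η, hCc, hη, hη2, hC⟩ := hC 6
  obtain ⟨Y1, hY1⟩ := poly_exp (20 * Ca) (B + 1 + B0) (c := 0.08) (by norm_num)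
  obtain ⟨Y2, hY2⟩ := poly_exp (2 * (100 * Cc)) (B + 2 + B0) (c := 0.005) (by norm_num)
  obtain ⟨Y3, hY3⟩ := poly_exp (2 * (100 * Cc)) (B + 2 + B0) (c := 0.09 * η) (by positivity)
  refine ⟨max (max Y1 Y2) (max Y3 (max 1 |C1|)), ?_⟩
  intro Y hY q hq χ hqY hχ t d k hd1 hd2 hk
  have hy1 := hY1 Y ((le_max_left _ _).trans ((le_max_left _ _).trans hY))
  have hy2 := hY2 Y ((le_max_right _ _).trans ((le_max_left _ _).trans hY))
  have hy3 := hY3 Y ((le_max_left _ _).trans ((le_max_right _ _).trans hY))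
  have h4 := (le_max_right Y3 (max 1 |C1|)).trans ((le_max_right _ _).trans hY)
  have hyo : 1 ≤ Y := (le_max_left _ _).trans h4
  have hyC : |C1| ≤ Y := (le_max_right _ _).trans h4
  have hY0 : 0 < Y := by linarith
  have hd0 : (0 : ℝ) ≤ d := Nat.cast_nonneg d
  have hdY : Y ≤ 1 + (d : ℝ) := by linarith
  have hd10 : 1 + (d : ℝ) ≤ 10 * Y := by linarith
  have hk2 : |(k : ℝ)| ≤ Real.exp (0.505 * Y) := hk.trans (Kc_le Y)
  have hk6 : |(k : ℝ)| ≤ Real.exp ((6 : ℕ) * d / 20) := by
    refine hk2.trans (Real.exp_le_exp.mpr ?_)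
    push_cast
    linarith
  have hq1 : (1 : ℝ) ≤ q := by exact_mod_cast NeZero.one_le
  by_cases ht : t = 0
  · subst ht
    have h2 := h1 q hq χ (zY Y) d k (hqY.trans (pow_le_pow_left₀ hY0.le hdY B)) hk6
    refine h2.trans ?_
    calc C1 / (1 + (d : ℝ)) ^ (B0 + 1) ≤ |C1| / Y ^ (B0 + 1) := by
          apply div_le_div₀ (abs_nonneg _) (le_abs_self _) (by positivity)
          exact pow_le_pow_left₀ hY0.le hdY _
      _ ≤ Y / Y ^ (B0 + 1) := by gcongr
      _ = 1 / Y ^ B0 := by
          rw [pow_succ]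
          field_simp
  · rcases le_or_gt |(k : ℝ)| (Real.exp (0.01 * Y)) with hks | hks
    · have h2 := hA q hq χ (zY Y) t d k hχ ht
      refine h2.trans ?_
      have h3 : 1 ≤ Real.exp (0.01 * Y) := Real.one_le_exp (by positivity)
      calc Ca * q * (1 + |(k : ℝ)|) * (1 + d) * Real.exp (-((d : ℝ) / 20))
          ≤ Ca * Y ^ B * (2 * Real.exp (0.01 * Y)) * (10 * Y) * Real.exp (-(0.09 * Y)) := by
            apply mul_le_mul _ (Real.exp_le_exp.mpr (by linarith)) (Real.exp_pos _).le (by positivity)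
            apply mul_le_mul _ hd10 (by positivity) (by positivity)
            apply mul_le_mul _ (by linarith) (by positivity) (by positivity)
            exact mul_le_mul_of_nonneg_left hqY (by linarith)
        _ = 20 * Ca * Y ^ (B + 1) * Real.exp (-(0.08 * Y)) := by
            have e : Real.exp (-(0.08 * Y)) = Real.exp (0.01 * Y) * Real.exp (-(0.09 * Y)) := by
              rw [← Real.exp_add]
              congr 1
              ring
            rw [e, pow_succ]
            ring
        _ ≤ 1 / Y ^ B0 := by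
            rw [Real.exp_neg, ← div_eq_mul_inv, div_le_div_iff₀ (Real.exp_pos _) (by positivity)]
            have e : 20 * Ca * Y ^ (B + 1) * Y ^ B0 = 20 * Ca * Y ^ (B + 1 + B0) := by
              rw [pow_add]
              ring
            linarith
    · have hk0 : k ≠ 0 := by
        rintro rfl
        rw [Int.cast_zero, abs_zero] at hks
        have := Real.exp_pos (0.01 * Y)
        linarith
      have h2 := hC q hq χ (zY Y) t d k ht hk0 hk6
      refine h2.trans ?_
      have q2 : |(k : ℝ)| ^ (-(1 / 2) : ℝ) ≤ Real.exp (-(0.005 * Y)) := by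
        calc |(k : ℝ)| ^ (-(1 / 2) : ℝ) ≤ (Real.exp (0.01 * Y)) ^ (-(1 / 2) : ℝ) :=
              Real.rpow_le_rpow_of_nonpos (Real.exp_pos _) hks.le (by norm_num)
          _ = Real.exp (-(0.005 * Y)) := by
              rw [← Real.exp_mul]
              congr 1
              ring
      have q3 : Real.exp (-(η * d / 20)) ≤ Real.exp (-(0.09 * η * Y)) := by
        apply Real.exp_le_exp.mpr
        nlinarith
      have c1 : 100 * Cc * Y ^ (B + 2) * Real.exp (-(0.005 * Y)) ≤ 1 / 2 * (1 / Y ^ B0) := by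
        have e0 : 1 / 2 * (1 / Y ^ B0) = 1 / (2 * Y ^ B0) := by field_simp
        rw [Real.exp_neg, ← div_eq_mul_inv, e0, div_le_div_iff₀ (Real.exp_pos _) (by positivity)]
        have e : 100 * Cc * Y ^ (B + 2) * (2 * Y ^ B0) = 2 * (100 * Cc) * Y ^ (B + 2 + B0) := by
          rw [pow_add Y (B + 2)]
          ring
        linarith
      have c2 : 100 * Cc * Y ^ (B + 2) * Real.exp (-(0.09 * η * Y)) ≤ 1 / 2 * (1 / Y ^ B0) := by
        have e0 : 1 / 2 * (1 / Y ^ B0) = 1 / (2 * Y ^ B0) := by field_simp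
        rw [Real.exp_neg, ← div_eq_mul_inv, e0, div_le_div_iff₀ (Real.exp_pos _) (by positivity)]
        have e : 100 * Cc * Y ^ (B + 2) * (2 * Y ^ B0) = 2 * (100 * Cc) * Y ^ (B + 2 + B0) := by
          rw [pow_add Y (B + 2)]
          ring
        linarith
      calc Cc * q * (1 + (d : ℝ)) ^ 2 * (|(k : ℝ)| ^ (-(1 / 2) : ℝ) + Real.exp (-(η * d / 20)))
          ≤ Cc * Y ^ B * (10 * Y) ^ 2 * (Real.exp (-(0.005 * Y)) + Real.exp (-(0.09 * η * Y))) := by
            apply mul_le_mul _ (add_le_add q2 q3) (by positivity) (by positivity)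
            apply mul_le_mul _ (pow_le_pow_left₀ (by positivity) hd10 2) (by positivity) (by positivity)
            exact mul_le_mul_of_nonneg_left hqY (by linarith)
        _ = 100 * Cc * Y ^ (B + 2) * Real.exp (-(0.005 * Y)) +
            100 * Cc * Y ^ (B + 2) * Real.exp (-(0.09 * η * Y)) := by
            rw [pow_add]
            ring
        _ ≤ 1 / 2 * (1 / Y ^ B0) + 1 / 2 * (1 / Y ^ B0) := add_le_add c1 c2
        _ = 1 / Y ^ B0 := by ring

end Pool.Agent.L7h76.BW
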